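import Mathlib

/-!
# MP_d3e607_co (S11671): interface

Fractional arboricity at most `k - ε` gives `k` forests with components of bounded diameter.
Statements of the pieces; every piece has its complete proof in its doc string.

Overview. `m = k - 1` blue spanning trees `T i` (only the edges in `F i ≤ T i` are edges of `G`, the
others are *virtual*), the other edges `R` of `G` are red. Components of `R` are explored in a
*legal order*: `l 0` is the root of all trees, and `l b` (`b ≥ 1`) is the parent, in one of the trees,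
of a vertex in the red component of some `l b'`, `b' < b`.
-/

set_option autoImplicit false

namespace Pool.Agent.Run7.h680.DT

open SimpleGraph

/-- The component of `v`. -/
def cp {V : Type} (R : SimpleGraph V) (v : V) : Set V := {w | R.Reachable v w}

/-- `T` with the edge `f` replaced by `g`. -/
def swap {V : Type} (T : SimpleGraph V) (f g : Sym2 V) : SimpleGraph V :=
  T.deleteEdges {f} ⊔ fromEdgeSet {g}

/-- `R` without the edges at `c`. -/
def iso {V : Type} (R : SimpleGraph V) (c : V) : SimpleGraph V where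
  Adj u v := R.Adj u v ∧ u ≠ c ∧ v ≠ c
  symm := ⟨fun _ _ h => ⟨h.1.symm, h.2.2, h.2.1⟩⟩
  loopless := ⟨fun _ h => h.1.ne rfl⟩

/-- `y` is the parent of `x` in the tree `T` with root `r`. -/
def Arc {V : Type} (T : SimpleGraph V) (r x y : V) : Prop :=
  T.Adj x y ∧ (T.deleteEdges {s(x, y)}).Reachable y r

/-- `m` blue trees with real edges `F i ≤ T i`, and the red graph `R`. -/
structure Cfg {V : Type} (G : SimpleGraph V) (m : ℕ) where
  T : Fin m → SimpleGraph V
  F : Fin m → SimpleGraph V
  R : SimpleGraph V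
  tree : ∀ i, (T i).IsTree
  le : ∀ i x y, (F i).Adj x y → (T i).Adj x y
  dF : ∀ i j x y, (F i).Adj x y → (F j).Adj x y → i = j
  dR : ∀ i x y, (F i).Adj x y → ¬ R.Adj x y
  edge : ∀ x y, G.Adj x y ↔ R.Adj x y ∨ ∃ i, (F i).Adj x y

/-- Legal order `l 0, …, l (n - 1)` with respect to the trees `T` and the red graph `Q`. -/
def Legal {V : Type} {m : ℕ} (T : Fin m → SimpleGraph V) (Q : SimpleGraph V) (l : ℕ → V)
    (n : ℕ) : Prop :=
  (∀ b, b < n → ∀ b', b' < b → ¬ Q.Reachable (l b') (l b)) ∧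
  ∀ b, 0 < b → b < n → ∃ (i : Fin m) (x : V),
    (∃ b', b' < b ∧ Q.Reachable (l b') x) ∧ Arc (T i) (l 0) x (l b)

/-- `(T', R')` arises from `(T, R)` by exchanging some of the edges `x — y x` of `T`, `x ∈ I`, for
edges of `R`. (Reflexive and transitive.) -/
def Ex {V : Type} (I : Finset V) (y : V → V) (T R T' R' : SimpleGraph V) : Prop :=
  T'.IsTree ∧ R'.IsAcyclic ∧
  (∀ u v, R'.Adj u v → R.Adj u v ∨ ∃ x ∈ I, s(u, v) = s(x, y x)) ∧
  (∀ u v, R.Adj u v → R'.Adj u v ∨ T'.Adj u v) ∧
  (∀ u v, T.Adj u v → T'.Adj u v ∨ (R'.Adj u v ∧ ∃ x ∈ I, s(u, v) = s(x, y x)))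

/-- The family of tree edges `x — y x`, `x ∈ I`: `x` in the red component of `c`, the red
components of the `y x` are distinct, different from the one of `c`, with at most `s` vertices, and
`y x` is on the side of `r` of the edge. -/
def Fam {V : Type} (T R : SimpleGraph V) (r c : V) (s : ℕ) (I : Finset V) (y : V → V) : Prop :=
  (∀ x ∈ I, T.Adj x (y x)) ∧ (∀ x ∈ I, (T.deleteEdges {s(x, y x)}).Reachable (y x) r) ∧
  (∀ x ∈ I, R.Reachable c x) ∧ (∀ x ∈ I, ¬ R.Reachable c (y x)) ∧
  (∀ x ∈ I, (cp R (y x)).ncard ≤ s) ∧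
  (∀ x ∈ I, ∀ x' ∈ I, R.Reachable (y x) (y x') → x = x')

/-- **Piece VSX** (a virtual arc removes a red edge).

Proof. Strong induction on `a`. Write `f = s(x, y)`, `r = l 0`, `D = {w | ¬ (T i - f).Reachable w r}`
(so `z ∈ D`, and the components of `l b`, `b < a`, do not meet `D`). Trees are handled by
`Pool.Agent.Run7.h680.DT.Tree` (`swap_isTree`, `arc_keep`, `cross`).

Case `l a ∉ D`. By `cross` there is `Q.Adj u v` on the `Q`-path from `z` to `l a` with `u ∈ D`, `v ∉ D`
(if `Q` is acyclic then `s(u,v)` separates `z` from `l a`). Take `a' = a`,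
`T' i = swap (T i) f s(u,v)`, `F' i = F i ⊔ s(u,v)`, `R' = R - s(u,v)`, the other trees as before.
Legal: the components of `l b`, `b < a`, do not change; an arc `x_b → l b` of `T i` with `b ≤ a` has
`x_b` in an earlier component, so `x_b ∉ D` and the arc stays (`arc_keep`).

Case `l a ∈ D`. Then `a ≥ 1` (`l 0 ∉ D`); take `i_a`, `x_a` from `Legal`; `x_a ∉ D`. `i_a ≠ i` (the parent
`l a` of `x_a` would not be in `D`). Let `g = s(x_a, l a)`, an edge of `T i_a`; `x_a` is below `g`
(not reachable to `r` in `T i_a - g`). Let `a₁ < a` be the least index such that the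
`Q`-component of `l a₁` has a vertex `z₁` below `g`. If `g` is not in `F i_a`, use induction for
`c, g, a₁, z₁`. If `g ∈ F i_a`, let `c₁` be `c` with `T i` replaced by `swap (T i) f g` (a tree, as
`l a ∈ D`, `x_a ∉ D`), `F i` by `F i ⊔ g`, `F i_a` by `F i_a - g`, and the same `R`. It is legal up to
`a₁` as before, `g` is virtual in `T i_a`; use induction for `c₁, g, a₁, z₁`. -/
def S_VSX : Prop :=
  ∀ (V : Type) [Fintype V] (G : SimpleGraph V) (m : ℕ) (c : Cfg G m) (Q : SimpleGraph V)
    (l : ℕ → V) (a : ℕ) (i : Fin m) (x y z : V),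
    (∀ u v, Q.Adj u v → c.R.Adj u v) → Legal c.T Q l (a + 1) →
    (c.T i).Adj x y → ¬ (c.F i).Adj x y → Q.Reachable (l a) z →
    ¬ ((c.T i).deleteEdges {s(x, y)}).Reachable z (l 0) →
    (∀ b, b < a → ∀ w, Q.Reachable (l b) w →
      ((c.T i).deleteEdges {s(x, y)}).Reachable w (l 0)) →
    ∃ (a' : ℕ) (u v : V) (c' : Cfg G m), a' ≤ a ∧ Q.Adj u v ∧ Q.Reachable (l a') u ∧
      c'.R = c.R.deleteEdges {s(u, v)} ∧ Legal c'.T (Q.deleteEdges {s(u, v)}) l (a' + 1) ∧
      (a' = a → Q.IsAcyclic → ¬ (Q.deleteEdges {s(u, v)}).Reachable (l a) z)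

/-- **Piece SX** (single exchange of a real arc; uses VSX).

Proof. Let `f = s(x, y)`, `c₀` = `c` with `F i` replaced by `F i - f` and `R` by `R ⊔ f` (acyclic, as
`y` is not in the red component of `x`), `Q = c.R`, `D = {w | ¬ (T i - f).Reachable w (l 0)} ∋ x`. Let
`a ≤ j` be the least index such that the `Q`-component of `l a` meets `D`, `z` in it, and `z = x` if
`a = j`. VSX for `c₀, Q, a, z` gives `a' ≤ a`, `s(u,v)` in the component of `l a'`, and
`c'.R = (Q - s(u,v)) ⊔ f`. For `b < a'` the component of `l b` is neither the one of `x` (`l j`) nor the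
one of `y`, so it does not change. The component of `l a'` in `c'.R` is the one in `Q - s(u,v)`: if
`a' < j` it is neither the one of `x` nor of `y`; if `a' = j` then `a' = a`, `z = x`, and `x` is not
in the `Q - s(u,v)` component of `l j`. It is smaller, as a bridge was removed. -/
def S_SX : Prop :=
  ∀ (V : Type) [Fintype V] (G : SimpleGraph V) (m : ℕ) (c : Cfg G m) (l : ℕ → V) (j : ℕ)
    (i : Fin m) (x y : V), c.R.IsAcyclic → Legal c.T c.R l (j + 1) →
    Arc (c.T i) (l 0) x y → (c.F i).Adj x y → c.R.Reachable (l j) x →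
    (∀ b, b ≤ j → ¬ c.R.Reachable (l b) y) →
    ∃ (a' : ℕ) (c' : Cfg G m), a' ≤ j ∧ c'.R.IsAcyclic ∧ Legal c'.T c'.R l (a' + 1) ∧
      (∀ b, b < a' → cp c'.R (l b) = cp c.R (l b)) ∧
      (cp c'.R (l a')).ncard < (cp c.R (l a')).ncard ∧
      ∀ v, (cp c'.R v).ncard ≤ (cp c.R v).ncard ∨
        (cp c'.R v).ncard ≤ (cp c.R x).ncard + (cp c.R y).ncard

/-- **Piece CEN** (centroid of a component of a forest).

Proof. For an edge `u v` let `b u v` be the number of vertices joined to `v` in `R - s(u,v)`; then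
`b u v + b v u = n := (cp R l).ncard` for the edges in `cp R l`. If there is an edge with
`2 * b u v > n`, take one with the least `b u v` and `c = v`: for a neighbour `w ≠ u` of `v`,
`b v w < b u v` so `2 * b v w ≤ n` by minimality, and `b v u = n - b u v < n / 2`. If there is none, any
`c` works. The component of `w ≠ c` in `iso R c` is contained in the side of an edge `c w'` which
contains `w`. (Any other proof is welcome.) -/
def S_CEN : Prop :=
  ∀ (V : Type) [Fintype V] (R : SimpleGraph V) (l : V), R.IsAcyclic →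
    ∃ c, R.Reachable l c ∧ ∀ w, R.Reachable c w → w ≠ c →
      2 * (cp (iso R c) w).ncard ≤ (cp R l).ncard

/-- **Piece PX1** (exchanges in one tree, all `y x` on the side of `c`).

Proof. Induction on `p` (strong). `p = 0`: nothing to do. Let `p > 0`. For `x ∈ I` let
`D x = {w | ¬ (T - s(x, y x)).Reachable w c}`; `x ∈ D x`, `y x ∉ D x`, `c ∉ D x`. Take `x ∈ I` with
`(D x).ncard` least, `f = s(x, y x)`. By `cross` the `R`-path from `x` to `c` has an edge `g = s(u, v)`,
`u ∈ D x`, `v ∉ D x`, and `g` separates `x` from `c` in the forest `R`. Let `T₁ = swap T f g` (tree),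
`R₁ = swap R g f` (forest: `x`, `y x` are in different components of `R - g`). Then
`cp R₁ c = cp (R - g) c`, `cp R₁ x = side ∪ cp R (y x)`, where `side = cp (R - g) x`, `c ∉ side`,
`1 ≤ side.ncard ≤ h` (a walk from `x` inside of `side` avoids `c`, so it is in `iso R c`), and
`(cp R₁ c).ncard + side.ncard = (cp R c).ncard`. If `side.ncard ≥ p` stop. Otherwise let
`I₁ = {x' ∈ I | x' ∉ side}` (`x ∉ I₁`; at least `p - side.ncard` elements). It satisfies the
hypotheses for `T₁, R₁`: `y x'` is joined to `c` in `T₁ - s(x', y x')`: the `T`-path from `y x'` to `c`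
avoids `s(x', y x')`; if it avoids `f` too we are done (`reach_all`). Otherwise `y x' ∈ D x`, then
`x' ∈ D x` and `D x' ⊂ D x` strictly (`laminar`), against the choice of `x`. Induction for
`p - side.ncard`; the components of `iso R₁ c` of vertices `≠ c` in `cp R₁ c` are contained in those of
`iso R c`. Vertices of `side ∪ cp R (y x)` keep their `R₁`-component (of size `≤ h + s`) in the
induction: they are neither in `cp R₁ c` nor in `cp R₁ (y x')`, `x' ∈ I₁`. -/
def S_PX1 : Prop :=
  ∀ (V : Type) [Fintype V] (p s h : ℕ) (T R : SimpleGraph V) (c : V) (I : Finset V)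
    (y : V → V), T.IsTree → R.IsAcyclic → Fam T R c c s I y →
    (∀ w, R.Reachable c w → w ≠ c → (cp (iso R c) w).ncard ≤ h) → p ≤ I.card →
    ∃ T' R' : SimpleGraph V, Ex I y T R T' R' ∧ (cp R' c).ncard + p ≤ (cp R c).ncard ∧
      (∀ v, ¬ R'.Reachable c v → (R.Reachable c v ∨ ∃ x ∈ I, R.Reachable (y x) v) →
        (cp R' v).ncard ≤ h + s) ∧
      (∀ v, ¬ R.Reachable c v → (∀ x ∈ I, ¬ R.Reachable (y x) v) → cp R' v = cp R v)

/-- The size of the family which is needed in PX. -/
def N0 (s : ℕ) : ℕ := (s + 1) + (2 * (2 * s + 1) * (2 * s + 1) + 2)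

/-- **Piece PX** (multiple exchange in one tree; uses CEN, PX1).

Proof. Put `p = s + 1`, `w₀ = s + p = 2 s + 1`, `n = (cp R l).ncard ≥ 6 s + 2`, `c` a centroid (CEN).
Type I: `x ∈ I` such that `y x` is joined to `c` in `T - s(x, y x)`; type II: `x` is joined to `c` there.
If at least `p` elements are of type I: PX1 with `h = n / 2`
(`n / 2 + s + p ≤ n`, `s + p ≤ n`). Otherwise at least `2 w₀² + 2` are of type II. For these let
`D x = {w | ¬ (T - s(x, y x)).Reachable w r}`, which contains `x` and `c`, and not `y x`. These sets form a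
chain (`laminar`), strictly increasing, and `x' ∉ D x` if `D x ⊂ D x'` (`x ≠ x'`). Let
`ht w = #{x of type II | w ∉ D x}`. `ht c = 0`, and the largest one, `x₁`, has `ht x₁ ≥ 2 w₀² + 1`. Take
the `R`-path `c = w_0, …, w_t = x₁`.

Case A: some edge `g = s(w_i, w_{i+1})` has `ht w_i ≠ ht w_{i+1}` and the side of `w_{i+1}` in `R - g`
has at least `w₀` vertices. Some `D x` separates `w_i, w_{i+1}`: `T' = swap T s(x, y x) g`,
`R' = swap R g s(x, y x)`: `cp R' c` has at most `n - w₀ + s = n - p` vertices, the other side at most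
`n / 2 + s ≤ n - p`.

Case B: otherwise. The sides of the edges with `ht w_i ≠ ht w_{i+1}` have fewer than `w₀` vertices and
decrease strictly, so there are fewer than `w₀` such edges, and one, `g = s(α, β)`, `α = w_i`,
`β = w_{i+1}`, has `ht β - ht α ≥ 2 w₀ + 1`. Let `x₀` be the smallest element (`D x₀` least) with
`α ∈ D x₀`; there are at least `2 w₀` larger elements `x'` with `β ∉ D x'` (and `β ∉ D x₀`). Let
`T₁ = swap T s(x₀, y x₀) g`, `R₁ = swap R g s(x₀, y x₀)`. For these `x'`, `y x'` is joined to `c` in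
`T₁ - s(x', y x')`: `c` to `α` inside of `D x₀`, then `g`, then `β` to `y x'` outside of `D x'`. Fewer
than `w₀` of the `x'` are on the side of `β` in `R - g`; for the others (at least `w₀ = p + s`) use PX1
for `T₁, R₁, c`, `p + s` instead of `p`, `h = n / 2 + s`. The result has
`(cp R' c).ncard + p + s ≤ (cp R₁ c).ncard ≤ n + s`, the other components have at most
`n / 2 + 2 s ≤ n - p` vertices. -/
def S_PX : Prop :=
  ∀ (V : Type) [Fintype V] (s : ℕ) (T R : SimpleGraph V) (r l : V) (I : Finset V)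
    (y : V → V), T.IsTree → R.IsAcyclic → Fam T R r l s I y → N0 s ≤ I.card →
    6 * s + 2 ≤ (cp R l).ncard →
    ∃ T' R' : SimpleGraph V, Ex I y T R T' R' ∧
      (∀ v, (R.Reachable l v ∨ ∃ x ∈ I, R.Reachable (y x) v) →
        (cp R' v).ncard + (s + 1) ≤ (cp R l).ncard) ∧
      (∀ v, ¬ R.Reachable l v → (∀ x ∈ I, ¬ R.Reachable (y x) v) → cp R' v = cp R v)

/-- **Piece MX** (order preserving multiple exchange; uses VSX, PX).

Proof. `r = l 0`, `L = cp R (l j)`, `n = L.ncard`, `f x = s(x, y x)`,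
`D x = {w | ¬ (T i - f x).Reachable w r} ∋ x`. Let `a x ≤ j` be the least index such that
`cp R (l (a x))` meets `D x`, and `a` the least of the `a x`.

Case `a = j`. PX for `T i, R` gives `T', R'`; `c'`: `T' i = T'`,
`F' i = {uv | (F i ∨ R) uv ∧ ¬ R' uv}`, `R'`. Arcs `x_b → l b`, `b ≤ j`, stay, since `x_b` is in a component
of index `< j`, which does not meet the `D x` (`arc_keep`). `a' = j`.

Case `a < j`. Among the `x ∈ I` with `a x = a` let `x₀` be one with `(D x₀).ncard` least, `f₀ = f x₀`,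
`D₀ = D x₀`. If `l a ∉ D₀`, `cross` gives a red edge `e = s(u, v)` in `cp R (l a)` with `u ∈ D₀`, `v ∉ D₀`, and
`c₁`: `T₁ i = swap (T i) f₀ e`, `F₁ i = (F i - f₀) ⊔ e`, `R₁ = (R ⊔ f₀) - e`. If `l a ∈ D₀`, then `a ≥ 1`, the
arc `x_a → l a` of `Legal` is in `T i_a`, `x_a ∉ D₀`, `i_a ≠ i`, the arc is in `F i_a` (hypothesis), and
`c₁`: `T₁ i = swap (T i) f₀ e` with `e = s(l a, x_a)`, `u = l a`, `v = x_a`, `F₁ i = (F i - f₀) ⊔ e`,
`F₁ i_a = F i_a - e`, `R₁ = R ⊔ f₀`. In both cases `u ∈ cp R (l a)`, `u ∈ D₀`, `v ∉ D₀`. The family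
`I₁ = I \ {x₀}` satisfies `Fam (T₁ i) R₁ r (l j) s I₁ y`: `y x` is joined to `r` in `T₁ i - f x`: clear if the
`T i`-path from `y x` to `r` avoids `f₀`; otherwise `y x, x ∈ D₀`, `D x ⊂ D₀` strictly (`laminar`), so
`a x ≠ a`, so `u ∉ D x` (`u` is in `cp R (l a)`), and `y x` is joined to `u` in `T i - f₀ - f x`
(`reach_all`), then `e`, then `v` to `r` in `T i - f₀ - f x` (`v ∉ D₀ ⊃ D x`). PX for `T₁ i, R₁` (the
component of `l j` is `L ∪ cp R (y x₀)`, at most `n + s` vertices) gives `c₂` with all components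
which changed of size `< n`, and legal up to `a` (components of index `≤ a` are not among the changed
ones, except that `e` was removed from the one of `l a` in the first case). First case: done with
`a' = a`. Second case: VSX for `c₂`, `Q = c₂.R`, the virtual arc `x_a → l a` of `T i_a`, the least
index `a₁` such that the component of `l a₁` has a vertex below it (`a₁ < a`). -/
def S_MX : Prop :=
  ∀ (V : Type) [Fintype V] (s : ℕ) (G : SimpleGraph V) (m : ℕ) (c : Cfg G m) (l : ℕ → V)
    (j : ℕ) (i : Fin m) (I : Finset V) (y : V → V), c.R.IsAcyclic → Legal c.T c.R l (j + 1) →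
    (∀ b, b ≤ j → ∀ x, c.R.Reachable (l b) x → ∀ i' y', Arc (c.T i') (l 0) x y' →
      (c.F i').Adj x y') →
    Fam (c.T i) c.R (l 0) (l j) s I y → (∀ x ∈ I, ∀ b, b ≤ j → ¬ c.R.Reachable (l b) (y x)) →
    N0 s + 1 ≤ I.card → 6 * s + 2 ≤ (cp c.R (l j)).ncard →
    ∃ (a' : ℕ) (c' : Cfg G m), a' ≤ j ∧ c'.R.IsAcyclic ∧ Legal c'.T c'.R l (a' + 1) ∧
      (∀ b, b < a' → cp c'.R (l b) = cp c.R (l b)) ∧
      (cp c'.R (l a')).ncard < (cp c.R (l a')).ncard ∧
      (∀ v, (cp c'.R v).ncard ≤ (cp c.R v).ncard ∨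
        (cp c'.R v).ncard < (cp c.R (l j)).ncard) ∧
      (cp c'.R (l j)).ncard < (cp c.R (l j)).ncard

/-- The big components, weighted. -/
noncomputable def Phi {V : Type} [Fintype V] (B : ℕ) (R : SimpleGraph V) : ℕ :=
  ∑ v : V, if B < (cp R v).ncard then (Fintype.card V + 1) ^ (cp R v).ncard else 0

/-- **Piece PHI** (two statements on `Phi`). Proof: termwise. For the second one: with
`W = |V| + 1`, `Phi B R' ≤ ∑_{v ≠ v₀} (term v + W ^ (t - 1)) + W ^ (t - 1)
= ∑_{v ≠ v₀} term v + |V| W ^ (t - 1) < ∑_{v ≠ v₀} term v + W ^ t ≤ Phi B R`. -/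
def S_PHI : Prop :=
  ∀ (V : Type) [Fintype V] (B : ℕ) (R R' : SimpleGraph V),
    ((∀ v, (cp R' v).ncard ≤ (cp R v).ncard ∨ (cp R' v).ncard ≤ B) → Phi B R' ≤ Phi B R) ∧
    ∀ (t : ℕ) (v₀ : V), B < t → t ≤ (cp R v₀).ncard → (cp R' v₀).ncard < t →
      (∀ v, (cp R' v).ncard ≤ (cp R v).ncard ∨ (cp R' v).ncard < t) → Phi B R' < Phi B R

/-- **Piece LEX**. Proof: the digits from `a` on contribute at least `e a * W ^ (N - 1 - a)` and at
most `e' a * W ^ (N - 1 - a) + (W ^ (N - 1 - a) - 1)`. -/
def S_LEX : Prop :=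
  ∀ (N W : ℕ) (e e' : ℕ → ℕ) (a : ℕ), a < N → (∀ b, b < a → e' b = e b) → e' a < e a →
    (∀ b, e' b < W) →
    ∑ b ∈ Finset.range N, e' b * W ^ (N - 1 - b) < ∑ b ∈ Finset.range N, e b * W ^ (N - 1 - b)

open Classical in
/-- **Piece CNT** (edge count in a closed legal order).

Proof. `S = ⋃_{b<n} cp R (l b)`. For every `i` the graph `F i` on `S` is connected (follow parents to
`l 0`: every vertex of `S` other than `l 0` has a parent in `T i`, the arc is in `F i` and ends in
`S`), so it has at least `|S| - 1` edges. The graph `R` on `S` together with the `n - 1` edges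
`x_b — l b` (`1 ≤ b < n`, from `Legal`) is connected, so `R` has at least `|S| - 1 - (n - 1)` edges on
`S`. All these edges are different edges of `G` (`dF`, `dR`). Use
`SimpleGraph.Connected.card_vert_le_card_edgeSet_add_one`. -/
def S_CNT : Prop :=
  ∀ (V : Type) [Fintype V] (G : SimpleGraph V) (m : ℕ) (c : Cfg G m) (l : ℕ → V) (n : ℕ)
    (S : Finset V), 0 < n → Legal c.T c.R l n →
    (∀ x, x ∈ S ↔ ∃ b, b < n ∧ c.R.Reachable (l b) x) →
    (∀ x ∈ S, ∀ i y, Arc (c.T i) (l 0) x y → (c.F i).Adj x y ∧ y ∈ S) →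
    2 * ((m + 1) * (S.card - 1)) ≤
      ((S ×ˢ S).filter (fun p => G.Adj p.1 p.2)).card + 2 * (n - 1)

open Classical in
/-- **Piece NW** (Nash-Williams; uses VSX, CNT).

Proof. If `V` is empty or has one vertex the statement is easy (or take `V` nonempty first). Among all
`Cfg G k` (one exists: any spanning trees, `F i = ⊥`, `R = G`) take one with the fewest red edges. If
`R = ⊥`, then `T i, F i` for `i < m` and `R = F m` (`k = m + 1`; a subgraph of a tree) is the required
`Cfg G m`. Otherwise let `R.Adj u v`, `l 0 = u`, and extend to a legal order of maximal length `n`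
(`n ≤ |V|`, the `l b` are distinct). By maximality the parent of every vertex of
`S = ⋃_{b<n} cp R (l b)` is in `S`. If an arc `x → y` of `T i`, `x ∈ S`, is not in `F i`, let `a < n` be the
least index such that `cp R (l a)` has a vertex `z` below `s(x, y)` (one exists: `x` is below it).
VSX with `Q = R` gives a configuration with fewer red edges, a contradiction. So CNT applies:
`2 (k + 1) (|S| - 1) ≤ e + 2 (n - 1)` with `e ≤ 2 k (|S| - 1)`, and `|S| ≥ n + 1`
(`u, v` are in the same component), a contradiction. -/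
def S_NW : Prop :=
  ∀ (V : Type) [Fintype V] [Nonempty V] (G : SimpleGraph V) (m : ℕ),
    (∀ S : Finset V, 2 ≤ S.card →
      ((S ×ˢ S).filter (fun p => G.Adj p.1 p.2)).card ≤ 2 * ((m + 1) * (S.card - 1))) →
    ∃ c : Cfg G m, c.R.IsAcyclic

open Classical in
/-- **Main theorem** (uses everything above). Helper680. -/
def S_MAIN : Prop :=
  ∀ (m : ℕ) (ε : ℝ), 0 < ε → ∃ B : ℕ, ∀ (V : Type) [Fintype V] [Nonempty V] (G : SimpleGraph V),
    (∀ S : Finset V, 2 ≤ S.card → (((S ×ˢ S).filter (fun p => G.Adj p.1 p.2)).card : ℝ)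
      ≤ 2 * (((m : ℝ) + 1) - ε) * ((S.card : ℝ) - 1)) →
    ∃ c : Cfg G m, c.R.IsAcyclic ∧ ∀ v, (cp c.R v).ncard ≤ B

/-- **Piece FIN** (the frozen statement from MAIN and S09049).

Proof. `k = 0`: the hypothesis for pairs shows that `G` has no edge (and `|V| ≤ 1`). `k = m + 1`, `V`
nonempty: MAIN gives forests `F 0, …, F (m-1)` and a forest `R` with components of at most `B`
vertices, hence of diameter at most `B`. With `Pool.Agent.S09049.result` split `F 0 ⊔ R` into two
forests `H_0, R_1` with bounded diameters, `F 1 ⊔ R_1` into `H_1, R_2`, and so on (induction on the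
number of forests; the bound depends only on `B` and `m`). Colour an edge by the forest which
contains it. -/
def S_FIN : Prop :=
  S_MAIN → ∀ (k : ℕ) (ε : ℝ), 0 < ε → ∃ d : ℕ,
      ∀ (V : Type) [Fintype V] (G : SimpleGraph V) [DecidableRel G.Adj],
        (∀ S : Finset V, 2 ≤ S.card →
          (((S ×ˢ S).filter (fun p => G.Adj p.1 p.2)).card : ℝ)
            ≤ 2 * ((k : ℝ) - ε) * ((S.card : ℝ) - 1)) →
        ∃ c : G.edgeSet → Fin k, ∀ i : Fin k,
          (SimpleGraph.fromEdgeSet {e | ∃ h : e ∈ G.edgeSet, c ⟨e, h⟩ = i}).IsAcyclic ∧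
          ∀ u v : V,
            (SimpleGraph.fromEdgeSet {e | ∃ h : e ∈ G.edgeSet, c ⟨e, h⟩ = i}).Reachable u v →
            (SimpleGraph.fromEdgeSet {e | ∃ h : e ∈ G.edgeSet, c ⟨e, h⟩ = i}).dist u v ≤ d

end Pool.Agent.Run7.h680.DT
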